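import Pool.Agent.helper47.SPI.Spec

set_option autoImplicit false

namespace Pool.Agent.SPI

open Finset Pool.Agent.helper85.PG

theorem CEL : CEL_stmt := by
  classical
  intro p _ D h hh
  have hex : ∀ j ∈ D.image (fun s : ZMod p => s.val / h), ∃ s ∈ D, s.val / h = j := by
    intro j hj
    simpa using hj
  choose! g hg1 hg2 using hex
  have hinj : Set.InjOn g (D.image (fun s : ZMod p => s.val / h) : Finset ℕ) := by
    intro a ha b hb hab
    have h1 := hg2 a (by simpa using ha)
    have h2 := hg2 b (by simpa using hb)
    rw [← h1, ← h2, hab]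
  refine ⟨(D.image (fun s : ZMod p => s.val / h)).image g, ?_, ?_, ?_⟩
  · intro s hs
    obtain ⟨j, hj, rfl⟩ := Finset.mem_image.mp hs
    exact hg1 j hj
  · rw [Finset.card_image_of_injOn hinj]
    refine Finset.card_le_mul_card_image D h ?_
    intro j _
    have hsub : ((D.filter (fun s : ZMod p => s.val / h = j)).image (fun s : ZMod p => s.val)) ⊆
        Finset.Ico (h * j) (h * j + h) := by
      intro v hv
      obtain ⟨s, hs, rfl⟩ := Finset.mem_image.mp hv
      have h1 := (Finset.mem_filter.mp hs).2
      have h2 := Nat.div_add_mod s.val h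
      have h3 := Nat.mod_lt s.val hh
      rw [h1] at h2
      rw [Finset.mem_Ico]
      constructor <;> omega
    have hcard := Finset.card_le_card hsub
    rw [Finset.card_image_of_injective _ (ZMod.val_injective p)] at hcard
    simpa using hcard
  · intro s hs s' hs' heq
    obtain ⟨j, hj, rfl⟩ := Finset.mem_image.mp hs
    obtain ⟨j', hj', rfl⟩ := Finset.mem_image.mp hs'
    rw [hg2 j hj, hg2 j' hj'] at heq
    rw [heq]

end Pool.Agent.SPI
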